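import Mathlib

set_option autoImplicit false

namespace Pool.Agent.Results.MP_2ddb17_co.No

universe u

/-- A countable, locally finite, undirected multigraph with a set of interior vertices
(the other vertices are the boundary vertices). `E` is the set of oriented edges,
`src e = e₊`, `bar e` is the reversed edge, and `e₋ = src (bar e)`. -/
structure BGraph where
  V : Type
  E : Type
  countV : Countable V
  countE : Countable E
  src : E → V
  bar : E → E
  bar_bar : ∀ e, bar (bar e) = e
  bar_ne : ∀ e, bar e ≠ e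
  locfin : ∀ x, {e | src e = x}.Finite
  interior : Set V

/-- The end vertex `e₋`. -/
def BGraph.tgt (G : BGraph) (e : G.E) : G.V := G.src (G.bar e)

/-- `L x = d(x) x + ∑_{e₊ = x} w(e) (x - e₋)` in the free module `RV`. -/
noncomputable def lapVec (G : BGraph) {R : Type u} [CommRing R] (w : G.E → R) (d : G.V → R)
    (x : G.V) : G.V →₀ R :=
  d x • Finsupp.single x 1 +
    ∑ e ∈ (G.locfin x).toFinset, w e • (Finsupp.single x 1 - Finsupp.single (G.tgt e) 1)

/-- The generalized Laplacian `L : RV → RV`. -/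
noncomputable def lap (G : BGraph) {R : Type u} [CommRing R] (w : G.E → R) (d : G.V → R) :
    (G.V →₀ R) →ₗ[R] (G.V →₀ R) :=
  Finsupp.linearCombination R (lapVec G w d)

/-- `w` is symmetric and takes unit values: `(G, L)` is an `R^×`-network. -/
def IsUnitNetwork (G : BGraph) {R : Type u} [CommRing R] (w : G.E → R) : Prop :=
  (∀ e, w (G.bar e) = w e) ∧ ∀ e, IsUnit (w e)

/-- The fundamental module `RV / L(RV°)`. -/
abbrev Upsilon (G : BGraph) {R : Type u} [CommRing R] (w : G.E → R) (d : G.V → R) : Type u :=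
  (G.V →₀ R) ⧸ (Finsupp.supported R R G.interior).map (lap G w d)

/-- Start vertex in the example. Vertices: `(n, false) = u n` (boundary), `(n, true) = v n`
(interior). Edge `(n, 0)` joins `v n` and `u n`; edges `(n, 1)`, `(n, 2)` join `v n` and
`u (n+1)`; the Boolean is the orientation (`true`: starting at `v n`). -/
def src0 (e : ℕ × Fin 3 × Bool) : ℕ × Bool :=
  if e.2.2 = true then (e.1, true) else if e.2.1 = 0 then (e.1, false) else (e.1 + 1, false)

/-- The example: the ray `u 0 - v 0 = u 1 - v 1 = u 2 - ⋯` (alternately single and double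
edges), with the `v n` interior and the `u n` boundary. -/
abbrev G0 : BGraph where
  V := ℕ × Bool
  E := ℕ × Fin 3 × Bool
  countV := inferInstance
  countE := inferInstance
  src := src0
  bar e := (e.1, e.2.1, !e.2.2)
  bar_bar e := by simp
  bar_ne e := by
    rcases e with ⟨n, j, o⟩
    cases o <;> simp
  locfin x := by
    refine ((Set.finite_Iic x.1).prod (Set.finite_univ (α := Fin 3 × Bool))).subset ?_
    rintro ⟨n, j, o⟩ h
    simp only [Set.mem_ofPred_eq, src0] at h
    refine ⟨?_, trivial⟩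
    simp only [Set.mem_Iic]
    split_ifs at h <;> simp [← h]
  interior := {x | x.2 = true}

section flat

variable {R : Type u} [CommRing R] {F : Type u} [AddCommGroup F] [Module R F]

/-- Iterated retractions. -/
noncomputable def retr (r : ℕ → F) (φ : ℕ → F →ₗ[R] R) (c : ℕ → R) : ℕ → F →ₗ[R] F
  | 0 => LinearMap.id
  | n + 1 => (LinearMap.id - (c n • φ n).smulRight (r n)) ∘ₗ retr r φ c n

theorem retr_succ (r : ℕ → F) (φ : ℕ → F →ₗ[R] R) (c : ℕ → R) (n : ℕ) (z : F) :
    retr r φ c (n + 1) z = retr r φ c n z - (c n * φ n (retr r φ c n z)) • r n := by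
  simp [retr]

theorem retr_fix (r : ℕ → F) (φ : ℕ → F →ₗ[R] R) (c : ℕ → R)
    (h0 : ∀ m n, m < n → φ m (r n) = 0) (n N : ℕ) (h : N ≤ n) : retr r φ c N (r n) = r n := by
  induction N with
  | zero => rfl
  | succ N ih => rw [retr_succ, ih (by omega), h0 N n (by omega)]; simp

theorem retr_kill (r : ℕ → F) (φ : ℕ → F →ₗ[R] R) (c : ℕ → R)
    (h0 : ∀ m n, m < n → φ m (r n) = 0) (h1 : ∀ n, c n * φ n (r n) = 1) (n N : ℕ)
    (h : n < N) : retr r φ c N (r n) = 0 := by
  induction N with
  | zero => omega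
  | succ N ih =>
    rw [retr_succ]
    rcases Nat.lt_or_ge n N with h' | h'
    · rw [ih h']; simp
    · have : n = N := by omega
      subst this
      rw [retr_fix r φ c h0 n n le_rfl, h1]; simp

theorem retr_sub (r : ℕ → F) (φ : ℕ → F →ₗ[R] R) (c : ℕ → R) (N : ℕ) (z : F) :
    retr r φ c N z - z ∈ Submodule.span R (Set.range r) := by
  induction N with
  | zero => simp [retr]
  | succ N ih =>
    rw [retr_succ, sub_right_comm]
    exact Submodule.sub_mem _ ih
      (Submodule.smul_mem _ _ (Submodule.subset_span ⟨N, rfl⟩))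

theorem flat_quot [Module.Flat R F] (r : ℕ → F) (φ : ℕ → F →ₗ[R] R) (c : ℕ → R)
    (h0 : ∀ m n, m < n → φ m (r n) = 0) (h1 : ∀ n, c n * φ n (r n) = 1)
    (S : Submodule R F) (hS : S = Submodule.span R (Set.range r)) :
    Module.Flat R (F ⧸ S) := by
  subst hS
  apply Module.Flat.of_forall_isTrivialRelation
  intro l f x hfx
  choose X hX using fun i => Submodule.Quotient.mk_surjective _ (x i)
  have hmem : ∑ i, f i • X i ∈ Submodule.span R (Set.range r) := by
    rw [← Submodule.Quotient.mk_eq_zero, ← Submodule.mkQ_apply, map_sum]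
    simpa [hX] using hfx
  have key : ∀ z ∈ Submodule.span R (Set.range r), ∃ N, ∀ M, N ≤ M → retr r φ c M z = 0 := by
    intro z hz
    induction hz using Submodule.span_induction with
    | mem z hz =>
      obtain ⟨n, rfl⟩ := hz
      exact ⟨n + 1, fun M hM => retr_kill r φ c h0 h1 n M (by omega)⟩
    | zero => exact ⟨0, fun M _ => map_zero _⟩
    | add a b _ _ ha hb =>
      obtain ⟨N1, h1⟩ := ha
      obtain ⟨N2, h2⟩ := hb
      exact ⟨max N1 N2, fun M hM => by
        rw [map_add, h1 M (le_trans (le_max_left _ _) hM), h2 M (le_trans (le_max_right _ _) hM),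
          add_zero]⟩
    | smul a b _ hb =>
      obtain ⟨N, h⟩ := hb
      exact ⟨N, fun M hM => by rw [map_smul, h M hM, smul_zero]⟩
  obtain ⟨N, hN⟩ := key _ hmem
  have hrel : ∑ i, f i • retr r φ c N (X i) = 0 := by
    have := hN N le_rfl
    simpa [map_sum] using this
  obtain ⟨k, a, y, hy, ha⟩ := Module.Flat.isTrivialRelation_of_sum_smul_eq_zero hrel
  refine ⟨k, a, fun j => Submodule.Quotient.mk (y j), fun i => ?_, ha⟩
  have e1 : (Submodule.Quotient.mk (retr r φ c N (X i)) : F ⧸ Submodule.span R (Set.range r))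
      = Submodule.Quotient.mk (X i) := (Submodule.Quotient.eq _).2 (retr_sub r φ c N (X i))
  have hyi : retr r φ c N (X i) = ∑ j, a i j • y j := hy i
  rw [← hX i, ← e1, hyi, ← Submodule.mkQ_apply, map_sum]
  simp

end flat

theorem edges_v (n : ℕ) : (G0.locfin (n, true)).toFinset =
    ({(n, 0, true), (n, 1, true), (n, 2, true)} : Finset (ℕ × Fin 3 × Bool)) := by
  ext ⟨m, j, o⟩
  rw [Set.Finite.mem_toFinset]
  change src0 (m, j, o) = (n, true) ↔ _
  cases o
  · fin_cases j <;> simp [src0]
  · fin_cases j <;> simp [src0]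

theorem lapVec_v {R : Type u} [CommRing R] (w : ℕ × Fin 3 × Bool → R) (d : ℕ × Bool → R)
    (n : ℕ) :
    (lapVec G0 w d (n, true) : ℕ × Bool →₀ R) =
      (d (n, true) + w (n, 0, true) + w (n, 1, true) + w (n, 2, true)) •
          Finsupp.single (n, true) (1 : R) - w (n, 0, true) • Finsupp.single (n, false) (1 : R)
        - (w (n, 1, true) + w (n, 2, true)) • Finsupp.single (n + 1, false) (1 : R) := by
  unfold lapVec
  rw [edges_v]
  change d (n, true) • Finsupp.single (n, true) (1 : R) +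
    ∑ e ∈ ({(n, 0, true), (n, 1, true), (n, 2, true)} : Finset (ℕ × Fin 3 × Bool)),
      w e • (Finsupp.single ((n, true) : ℕ × Bool) (1 : R) -
        Finsupp.single (src0 (e.1, e.2.1, !e.2.2)) 1) = _
  rw [Finset.sum_insert (by simp), Finset.sum_insert (by simp), Finset.sum_singleton]
  have a0 : src0 (n, 0, !true) = (n, false) := by simp [src0]
  have a1 : src0 (n, 1, !true) = (n + 1, false) := by simp [src0]
  have a2 : src0 (n, 2, !true) = (n + 1, false) := by simp [src0]
  simp only [a0, a1, a2]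
  module

theorem map_eq {R : Type u} [CommRing R] (w : ℕ × Fin 3 × Bool → R) (d : ℕ × Bool → R) :
    (Finsupp.supported R R G0.interior).map (lap G0 w d) =
      Submodule.span R (Set.range fun n : ℕ => lapVec G0 w d (n, true)) := by
  rw [Finsupp.supported_eq_span_single, Submodule.map_span]
  congr 1
  ext z
  constructor
  · rintro ⟨_, ⟨⟨n, b⟩, hb, rfl⟩, rfl⟩
    have hb' : b = true := hb
    subst hb'
    exact ⟨n, by simp [lap]⟩
  · rintro ⟨n, rfl⟩
    exact ⟨_, ⟨(n, true), rfl, rfl⟩, by simp [lap]⟩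

theorem flat_all (R : Type u) [CommRing R] (w : G0.E → R) (d : G0.V → R)
    (hw : IsUnitNetwork G0 w) : Module.Flat R (Upsilon G0 w d) := by
  have hu : ∀ n : ℕ, ∃ c : R, c * w (n, 0, true) = 1 := fun n => (hw.2 _).exists_left_inv
  choose c hc using hu
  refine flat_quot (F := ℕ × Bool →₀ R) (fun n : ℕ => lapVec G0 w d (n, true))
    (fun n => Finsupp.lapply (n, false)) (fun n => - c n) ?_ ?_ _ (map_eq w d)
  · intro m n h
    rw [lapVec_v]
    have h1 : m ≠ n := by omega
    have h2 : m ≠ n + 1 := by omega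
    simp [h1.symm, h2.symm]
  · intro n
    rw [lapVec_v]
    simp [hc]

theorem not_free : ¬ Module.Free ℤ (Upsilon G0 (fun _ => (1 : ℤ)) (fun _ => (-3 : ℤ))) := by
  intro hfree
  set S := (Finsupp.supported ℤ ℤ G0.interior).map (lap G0 (fun _ => (1 : ℤ)) (fun _ => (-3 : ℤ)))
    with hSdef
  have hS := map_eq (fun _ => (1 : ℤ)) (fun _ => (-3 : ℤ))
  have hr : ∀ n : ℕ, (lapVec G0 (fun _ => (1 : ℤ)) (fun _ => (-3 : ℤ)) (n, true) : ℕ × Bool →₀ ℤ)
      = - Finsupp.single (n, false) (1 : ℤ) - (2 : ℤ) • Finsupp.single (n + 1, false) (1 : ℤ) := by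
    intro n
    rw [lapVec_v]
    module
  let U : ℕ → Upsilon G0 (fun _ => (1 : ℤ)) (fun _ => (-3 : ℤ)) := fun n =>
    Submodule.Quotient.mk (Finsupp.single ((n, false) : ℕ × Bool) (1 : ℤ))
  have hU : ∀ n, U n = (-2 : ℤ) • U (n + 1) := by
    intro n
    simp only [U]
    rw [← Submodule.Quotient.mk_smul, Submodule.Quotient.eq, hS]
    have : (Finsupp.single ((n, false) : ℕ × Bool) (1 : ℤ)) -
        (-2 : ℤ) • Finsupp.single ((n + 1, false) : ℕ × Bool) (1 : ℤ) =
        - (lapVec G0 (fun _ => (1 : ℤ)) (fun _ => (-3 : ℤ)) (n, true) : ℕ × Bool →₀ ℤ) := by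
      rw [hr]; module
    erw [this]
    exact Submodule.neg_mem _ (Submodule.subset_span ⟨n, rfl⟩)
  have hU0 : ∀ n, U 0 = ((-2 : ℤ) ^ n) • U n := by
    intro n
    induction n with
    | zero => simp
    | succ n ih => rw [ih, hU n, smul_smul, pow_succ]
  have hz : U 0 = 0 := by
    let b := Module.Free.chooseBasis ℤ (Upsilon G0 (fun _ => (1 : ℤ)) (fun _ => (-3 : ℤ)))
    apply b.repr.injective
    ext i
    rw [map_zero, Finsupp.zero_apply]
    set t := b.repr (U 0) i with ht
    have hd : (-2 : ℤ) ^ t.natAbs ∣ t := by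
      refine ⟨b.repr (U t.natAbs) i, ?_⟩
      conv_lhs => rw [ht, hU0 t.natAbs, map_smul]
      simp
    apply Int.eq_zero_of_dvd_of_natAbs_lt_natAbs hd
    rw [Int.natAbs_pow]
    exact Nat.lt_two_pow_self
  have hmem : Finsupp.single ((0, false) : ℕ × Bool) (1 : ℤ) ∈ S :=
    (Submodule.Quotient.mk_eq_zero S).1 hz
  let ψ : (ℕ × Bool →₀ ℤ) →ₗ[ℤ] ℚ :=
    Finsupp.linearCombination ℤ fun x : ℕ × Bool => if x.2 = true then 0 else (-1 / 2 : ℚ) ^ x.1
  have hker : S ≤ LinearMap.ker ψ := by
    rw [hSdef, hS, Submodule.span_le]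
    rintro _ ⟨n, rfl⟩
    change ψ (lapVec G0 (fun _ => (1 : ℤ)) (fun _ => (-3 : ℤ)) (n, true)) = 0
    rw [hr]
    simp only [ψ, map_sub, map_neg, map_smul, Finsupp.linearCombination_single]
    simp only [Bool.false_eq_true, if_false, one_smul, zsmul_eq_mul]
    push_cast
    ring
  have := hker hmem
  rw [LinearMap.mem_ker] at this
  simp [ψ] at this

/-- The infinite `∂`-graph `G0` has flat fundamental module for every commutative ring and every
`R^×`-network, but a fundamental module over `ℤ` that is not free. -/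
theorem result :
    Infinite G0.V ∧
      (∀ (R : Type u) [CommRing R] (w : G0.E → R) (d : G0.V → R), IsUnitNetwork G0 w →
        Module.Flat R (Upsilon G0 w d)) ∧
      ∃ (w : G0.E → ℤ) (d : G0.V → ℤ), IsUnitNetwork G0 w ∧ ¬ Module.Free ℤ (Upsilon G0 w d) :=
  ⟨inferInstanceAs (Infinite (ℕ × Bool)), flat_all,
    ⟨fun _ => 1, fun _ => -3, ⟨fun _ => rfl, fun _ => isUnit_one⟩, not_free⟩⟩

end Pool.Agent.Results.MP_2ddb17_co.No
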